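import Pool.Agent.H41.VAS.ValT
import Pool.Agent.H12.LSH.Shg

/-!
# The data of the sheets on a sub-law are good
-/

set_option autoImplicit false

namespace Pool.VAS

open Finset MvPolynomial
open Pool.Agent.H49.Ent Pool.Agent.H32.Dense Pool.STK Pool.STAT Pool.MIC Pool.MicA Pool.PTH
open Pool.MIC.Frm (nat)
open Pool.BFL (Pl Pb)
open Pool.TIE (SubL)
open Pool.GSD (vtP wof)
open Pool.LSH

namespace OK48

/-- The coefficients of the shape by rank, any number of ranks. -/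
theorem Fd_cf (n K₀ : ℕ) : ∃ A : ℝ, 0 ≤ A ∧ ∀ (k : ℕ), k ≤ n - 1 → ∀ (z bb : ℕ) (π : Pls k)
    (F : Pl (n - 1)) α, |coeff α (Fd n K₀ z bb π F)| ≤ A * 2 ^ bb := by
  classical
  choose A hA h using fun k => Pool.Agent.H36.KBX.coef_bound k K₀
  refine ⟨(∑ k ∈ range n, A k) * (Pool.Agent.H36.KBX.bx (n - 1) K₀).card + ∑ k ∈ range (n + 1), A k *
    (Pool.Agent.H36.KBX.bx (n - 1) K₀).card, ?_, ?_⟩
  · have h1 : 0 ≤ ∑ k ∈ range n, A k := Finset.sum_nonneg fun k _ => hA k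
    have h2 : 0 ≤ ∑ k ∈ range (n + 1), A k * (Pool.Agent.H36.KBX.bx (n - 1) K₀).card :=
      Finset.sum_nonneg fun k _ => mul_nonneg (hA k) (Nat.cast_nonneg _)
    positivity
  · intro k hk z bb π F α
    have h1 : 0 ≤ (∑ k ∈ range n, A k) * ((Pool.Agent.H36.KBX.bx (n - 1) K₀).card : ℝ) :=
      mul_nonneg (Finset.sum_nonneg fun k _ => hA k) (Nat.cast_nonneg _)
    have h2 : A k * (Pool.Agent.H36.KBX.bx (n - 1) K₀).card ≤
        ∑ k ∈ range (n + 1), A k * (Pool.Agent.H36.KBX.bx (n - 1) K₀).card :=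
      Finset.single_le_sum (f := fun k => A k * ((Pool.Agent.H36.KBX.bx (n - 1) K₀).card : ℝ))
        (fun k _ => mul_nonneg (hA k) (Nat.cast_nonneg _)) (Finset.mem_range.2 (by omega))
    have h3 : |coeff α (Fd n K₀ z bb π F)| ≤
        A k * (Pool.Agent.H36.KBX.bx (n - 1) K₀).card * 2 ^ bb := by
      rw [mul_assoc]
      refine h k _ _ (Fd_deg n K₀ z bb π F) (fun y hy => ?_) α
      by_cases hF : F.totalDegree ≤ K₀ ∧ ∀ α, |coeff α F| ≤ 2 ^ bb
      · rw [eval_Fd n K₀ z bb π hF.1 hF.2]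
        have := Pool.Agent.H36.KBX.eval_bound F hF.1 (2 ^ bb) 1 le_rfl hF.2
          (fun l : Fin (n - 1) => if h : π.rk (l + 1) < k then
            1 / (4 * 2 ^ z) * y ⟨π.rk (l + 1), h⟩ + 1 / 2 else 1 / 2) (fun l => ?_)
        · rwa [one_pow, mul_one] at this
        · split_ifs with hl
          · have h1 := hy ⟨π.rk (l + 1), hl⟩
            have h2 : (1 : ℝ) / (4 * 2 ^ z) ≤ 1 / 4 := by
              refine one_div_le_one_div_of_le (by norm_num) ?_
              have : (1 : ℝ) ≤ 2 ^ z := one_le_pow₀ (by norm_num)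
              linarith
            have h3 : |1 / (4 * 2 ^ z) * y ⟨π.rk (l + 1), hl⟩| ≤ 1 / 4 := by
              rw [abs_mul, abs_of_pos (by positivity : (0 : ℝ) < 1 / (4 * 2 ^ z))]
              calc 1 / (4 * 2 ^ z) * |y ⟨π.rk (l + 1), hl⟩| ≤ 1 / 4 * 1 :=
                    mul_le_mul h2 h1 (abs_nonneg _) (by norm_num)
                _ = 1 / 4 := mul_one _
            rw [abs_le] at h3 ⊢
            constructor <;> linarith
          · rw [abs_of_pos (by norm_num)]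
            norm_num
      · unfold Fd
        rw [if_neg hF, map_zero, abs_zero]
        positivity
    refine h3.trans (mul_le_mul_of_nonneg_right ?_ (by positivity))
    linarith

/-- Rounding: the height over the label at `a` is nearly the same for the two samples. -/
theorem hh_ar {X : ℕ} {m m' : ℤ} {x x' u u' v v' ac B B' : ℝ}
    (hm : m = ⌊(2 : ℝ) ^ X * x⌋) (hm' : m' = ⌊(2 : ℝ) ^ X * x'⌋)
    (h1 : |u + v - x| ≤ ac) (h2 : |u' + v' - x'| ≤ ac) (h3 : |u - u'| ≤ B / 2 ^ X)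
    (hB : 2 * (ac * 2 ^ X) + B + 1 ≤ B') : |((m' : ℝ) - m) - 2 ^ X * (v' - v)| ≤ B' := by
  have h0 : (0 : ℝ) < 2 ^ X := by positivity
  have a1 := Int.floor_le ((2 : ℝ) ^ X * x)
  have a2 := Int.lt_floor_add_one ((2 : ℝ) ^ X * x)
  have a3 := Int.floor_le ((2 : ℝ) ^ X * x')
  have a4 := Int.lt_floor_add_one ((2 : ℝ) ^ X * x')
  rw [← hm] at a1 a2
  rw [← hm'] at a3 a4
  obtain ⟨b1, b2⟩ := abs_le.1 h1
  obtain ⟨b3, b4⟩ := abs_le.1 h2
  replace h3 : |(u - u') * (2 : ℝ) ^ X| ≤ B := by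
    rw [abs_mul, abs_of_pos h0]
    exact (le_div_iff₀ h0).1 h3
  obtain ⟨b5, b6⟩ := abs_le.1 h3
  have c1 := mul_le_mul_of_nonneg_left b1 h0.le
  have c2 := mul_le_mul_of_nonneg_left b2 h0.le
  have c3 := mul_le_mul_of_nonneg_left b3 h0.le
  have c4 := mul_le_mul_of_nonneg_left b4 h0.le
  rw [abs_le]
  constructor <;> linarith

end OK48

open OK48

/-- **The data of the sheets on a sub-law are good.** -/
theorem okT : OkTStmt := by
  classical
  intro n K K' K₀ N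
  obtain ⟨A, hA, hFc⟩ := Fd_cf n K₀
  obtain ⟨CA, hCA⟩ : ∃ CA : ℕ, A ≤ (2 : ℝ) ^ CA := by
    obtain ⟨c, hc⟩ := pow_unbounded_of_one_lt A (by norm_num : (1 : ℝ) < 2)
    exact ⟨c, hc.le⟩
  refine ⟨CA + 3, by positivity, ?_⟩
  intro D k π J a₀ w₀ z M X bb Bb lam gam κ C₁ c₁ c acc cc q ω₀ a Om _ P f G G₀ G' H
  have hO := H.ok
  have hwJ := H.wJ
  obtain ⟨w, hw⟩ : ∃ w, w = w₀ + π.o.2 * z := ⟨_, rfl⟩
  have hsh := H.shf
  rw [← hw] at hwJ hsh ⊢
  have do' : Det q (D.wn J w) (D.c π.o.1 π.o.2) :=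
    det_c hO H.o_le.1 H.o_le.2 hw.ge hwJ
  have da : Det q (D.wn J w) (D.c a.1 a.2) :=
    det_c hO H.a_le.1 (H.a_le.2.trans H.o_le.2)
      (le_trans (Nat.add_le_add_left (Nat.mul_le_mul_right z H.a_le.2) w₀) hw.ge) hwJ
  have hk : ∀ r, 1 ≤ π.co r := fun r => (H.co_lt r).1
  have hpos : ∀ v, 0 < P v → 0 < q (f v) := fun v hv => sub_pos H.c1 H.sub hv
  have hkn : k ≤ n - 1 := by
    have h3 : Function.Injective fun r : Fin k => (⟨π.co r - 1, by
        have := H.co_lt r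
        omega⟩ : Fin (n - 1)) := by
      intro r r' e
      refine H.inj ?_
      have e1 := congrArg Fin.val e
      have a1 := (H.co_lt r).1
      have a2 := (H.co_lt r').1
      dsimp only at e1
      omega
    have h4 := Fintype.card_le_of_injective _ h3
    rwa [Fintype.card_fin, Fintype.card_fin] at h4
  have hbb : (0 : ℝ) ≤ bb := Nat.cast_nonneg bb
  have hc0 := H.c_ge
  have hcc0 := H.cc_ge
  have hCA0 : (0 : ℝ) ≤ CA := Nat.cast_nonneg CA
  have mono : ∀ x : ℝ, x ≤ (2 : ℝ) ^ c → x ≤ (2 : ℝ) ^ (c + bb + cc + (CA + 3)) := fun x hx =>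
    hx.trans (Real.rpow_le_rpow_of_exponent_le (by norm_num) (by linarith))
  have hok := hsh.ok
  refine ⟨H.sub.isLaw, fun τ => ⟨?_, ?_⟩, fun τ => Fd_deg _ _ _ _ _ _, fun τ α => ?_,
    ?_, ?_, ?_, ?_, ?_, ?_, ?_, ?_, ?_, ?_, ?_, ?_⟩
  · -- hth
    change (0 : ℝ) ≤ ((τ.2.1 % 2 ^ (J - w) : ℕ) : ℝ) / 2 ^ (J - w)
    positivity
  · change ((τ.2.1 % 2 ^ (J - w) : ℕ) : ℝ) / 2 ^ (J - w) < 1
    rw [div_lt_one (by positivity)]
    have : τ.2.1 % 2 ^ (J - w) < 2 ^ (J - w) := Nat.mod_lt _ (by positivity)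
    exact_mod_cast this
  · -- hFc
    refine (hFc k hkn z bb π τ.2.2 α).trans ?_
    have e1 : A * 2 ^ bb ≤ (2 : ℝ) ^ CA * 2 ^ bb := mul_le_mul_of_nonneg_right hCA (by positivity)
    refine e1.trans ?_
    rw [← pow_add, ← Real.rpow_natCast]
    refine Real.rpow_le_rpow_of_exponent_le (by norm_num) ?_
    push_cast
    linarith
  · -- hN
    intro v v' h h' e
    have e1 : D.wn J w (f v) = D.wn J w (f v') := (Prod.ext_iff.1 e).1
    have e2 : (D.c π.o.1 π.o.2 (f v), (thr D J w (f v),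
        kT D n z π.o.1 π.o.2 bb (G v) (f v))) = (D.c π.o.1 π.o.2 (f v'), (thr D J w (f v'),
          kT D n z π.o.1 π.o.2 bb (G v') (f v'))) := (Prod.ext_iff.1 e).2
    have e3 : thr D J w (f v) = thr D J w (f v') := (Prod.ext_iff.1 (Prod.ext_iff.1 e2).2).1
    have e4 : kT D n z π.o.1 π.o.2 bb (G v) (f v) = kT D n z π.o.1 π.o.2 bb (G v') (f v') :=
      (Prod.ext_iff.1 (Prod.ext_iff.1 e2).2).2
    have hzt : ∀ l ≤ n, zt D π.o.1 π.o.2 (f v) l = zt D π.o.1 π.o.2 (f v') l := by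
      intro l hl
      rw [← zt_Qp hO hwJ (hpos v h) hl, ← zt_Qp hO hwJ (hpos v' h') hl,
        Qp_congr do' (hpos v h) (hpos v' h') e1, e3]
    have hY : (fun l : Fin (n - 1) => up z (zt D π.o.1 π.o.2 (f v) (l + 1))) =
        fun l : Fin (n - 1) => up z (zt D π.o.1 π.o.2 (f v') (l + 1)) := by
      funext l
      rw [hzt (l + 1) (by have := l.2; omega)]
    change htT D n z π.o.1 π.o.2 bb X (G v) (f v) = htT D n z π.o.1 π.o.2 bb X (G v') (f v')
    unfold htT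
    rw [hzt n le_rfl, hY, e4]
  · -- hV
    intro v v' _ _ e
    have e' : Vd D π q J w ω₀ X a (D.wn J w (f v)) = Vd D π q J w ω₀ X a (D.wn J w (f v')) := e
    have h1 : yd D π q J w ω₀ X (D.wn J w (f v)) = yd D π q J w ω₀ X (D.wn J w (f v')) :=
      congrArg (fun V : VdT D k => V.2.2) e'
    have h2 : qd D π n w X N a (Vd D π q J w ω₀ X a (D.wn J w (f v))) =
      qd D π n w X N a (Vd D π q J w ω₀ X a (D.wn J w (f v'))) := congrArg _ e'
    have h3 : (fun r => Zd D π q J w ω₀ X r (D.wn J w (f v))) =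
      fun r => Zd D π q J w ω₀ X r (D.wn J w (f v')) :=
      congrArg (fun V : VdT D k => V.2.1) e'
    exact Prod.ext h1 (Prod.ext h2 h3)
  · -- hZB
    intro j v v' _ _ e
    have e' : Zd D π q J w ω₀ X j (D.wn J w (f v)) = Zd D π q J w ω₀ X j (D.wn J w (f v')) := e
    exact congrArg Prod.fst e'
  · -- hTB
    intro v v' h h' e
    have e1 : D.c π.o.1 π.o.2 (f v) = D.c π.o.1 π.o.2 (f v') := congrArg Prod.fst e
    have c1 : cl D q J w ω₀ π.o (D.wn J w (f v)) = D.c π.o.1 π.o.2 (f v) :=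
      cl_eq ω₀ do' (hpos v h)
    have c2 : cl D q J w ω₀ π.o (D.wn J w (f v')) = D.c π.o.1 π.o.2 (f v') :=
      cl_eq ω₀ do' (hpos v' h')
    change cl D q J w ω₀ π.o (D.wn J w (f v)) = cl D q J w ω₀ π.o (D.wn J w (f v'))
    rw [c1, c2, e1]
  · -- hy
    intro v _ j
    exact yd_all D π q J w ω₀ X (D.wn J w (f v)) j
  · -- tri
    intro v hv hP
    exact hok.tri (f v) (H.good v hv hP).1 (hpos v hP)
  · -- dia
    intro v hv hP
    exact hok.dia (f v) (H.good v hv hP).1 (hpos v hP)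
  · -- hq
    intro v hv hP i
    exact mono _ (hok.hq (f v) (H.good v hv hP).1 (hpos v hP) i)
  · -- hx
    intro v hv hP i
    exact mono _ (hok.hx (f v) (H.good v hv hP).1 (hpos v hP) i)
  · -- hs
    intro v hv hP j i m b
    exact mono _ (hok.hs (f v) (H.good v hv hP).1 (hpos v hP) j i m b)
  · -- cc
    intro v hv hP j i hij
    refine (hok.cc (f v) (H.good v hv hP).1 (hpos v hP) j i hij).trans ?_
    refine Real.rpow_le_rpow_of_exponent_le (by norm_num) ?_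
    change c - (X : ℝ) ≤ c + bb + cc + (CA + 3) - (X : ℝ)
    linarith
  · -- hh
    have one : ∀ v ∈ G', 0 < P v →
        |2 ^ D.g π.o.1 π.o.2 n / 2 ^ D.g a.1 a.2 n * zt D a.1 a.2 (f v) n +
          dnf D π n w X a (Vd D π q J w ω₀ X a (D.wn J w (f v))).1 0 +
          (shT D π q J w ω₀ n X N K₀ z bb a P f G).hgt (D.wn J w (f v))
            (D.c π.o.1 π.o.2 (f v), (thr D J w (f v), kT D n z π.o.1 π.o.2 bb (G v) (f v))) -
          (zt D π.o.1 π.o.2 (f v) n - eval (fun l : Fin (n - 1) =>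
            up z (zt D π.o.1 π.o.2 (f v) (l + 1))) (kT D n z π.o.1 π.o.2 bb (G v) (f v)))| ≤
          acc := by
      intro v hv hPv
      have hω : 0 < q (f v) := hpos v hPv
      obtain ⟨hG0, hL, hcf⟩ := H.good v hv hPv
      have eT : thq J w (thr D J w (f v)) = tm D J w (f v) := thq_eq J w (f v)
      have eR : kT D n z π.o.1 π.o.2 bb (G v) (f v) = kTr D n z π.o.1 π.o.2 (G v) (f v) := by
        unfold kT
        rw [if_pos hcf]
      have tP : TriN (D.Φ π.o.1 π.o.2 (f v)) := hO.P_tri _ _ _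
      have tG : TriN (D.Ψ π.o.1 π.o.2 (f v)) := hO.G_tri _ _ _
      have dR : (kTr D n z π.o.1 π.o.2 (G v) (f v)).totalDegree ≤ K₀ :=
        (VT.kTr_deg (fun l => hO.P_deg _ _ _ l) tP (fun l => hO.G_deg _ _ _ l) tG
          (H.deg v)).trans H.K₀_ge
      obtain ⟨hb1, hb2⟩ := hsh.box (f v) hG0 hω
      have hb3 := hsh.hts (f v) hG0 hω
      have hup : ∀ m : ℕ, (2 : ℝ) ^ c / 2 ^ m ≤ 2 ^ (Bb * z) / 2 ^ m := fun m =>
        div_le_div_of_nonneg_right H.cBb (by positivity)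
      have hb1' : BxB D n π.o.1 π.o.2 a.1 a.2 (2 ^ (Bb * z)) (f v) (D.X (f v)) :=
        ⟨hb1.1, fun l h1 h2 => (hb1.2.1 l h1 h2).trans (hup _),
          fun l h1 h2 h3 => (hb1.2.2 l h1 h2 h3).trans (hup _)⟩
      have hb2' : BxB D n π.o.1 π.o.2 a.1 a.2 (2 ^ (Bb * z)) (f v)
          (xvs D π q J w ω₀ X a (f v)) :=
        ⟨hb2.1, fun l h1 h2 => (hb2.2.1 l h1 h2).trans (hup _),
          fun l h1 h2 h3 => (hb2.2.2 l h1 h2 h3).trans (hup _)⟩
      have hb3' : ∀ l, 1 ≤ l → l < n → D.g π.o.1 π.o.2 l < D.g a.1 a.2 l →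
          |(D.X (f v) l - eval (D.X (f v)) (D.Φ a.1 a.2 (f v) l)) -
            (xvs D π q J w ω₀ X a (f v) l -
              eval (xvs D π q J w ω₀ X a (f v)) (D.Φ a.1 a.2 (f v) l))| ≤
            2 ^ (Bb * z) / 2 ^ (D.g a.1 a.2 l + X) := fun l h1 h2 h3 =>
        (hb3 l h1 h2 h3).trans (hup _)
      have key := fr_id hL hb1' hb2' hb3'
      have ex : xvs D π q J w ω₀ X a (f v) =
          xvp D π w X a (Vd D π q J w ω₀ X a (D.wn J w (f v))).1 (tm D J w (f v)) := by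
        unfold xvs
        rw [eT]
      -- the height along the line
      have em := hsh.mot (f v) hG0 hω (tm D J w (f v))
      have ed := dnf_eq (X := X) (π := π) n ω₀ do' da hω (a := a) (w := w) (tm D J w (f v))
      have e1 : (shT D π q J w ω₀ n X N K₀ z bb a P f G).hgt (D.wn J w (f v))
          (D.c π.o.1 π.o.2 (f v), (thr D J w (f v), kT D n z π.o.1 π.o.2 bb (G v) (f v))) =
          ∑ i, qd D π n w X N a (Vd D π q J w ω₀ X a (D.wn J w (f v))) i *
            thq J w (thr D J w (f v)) ^ (i.val + 1) - 0 -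
          eval (VAS.xf D π q J w ω₀ X a (D.wn J w (f v)) (thq J w (thr D J w (f v))))
            (Fd n K₀ z bb π (kT D n z π.o.1 π.o.2 bb (G v) (f v))) := rfl
      have e2 := val_frz (X := X) hO hk hwJ ω₀ do' da hω (a := a) dR hcf
      rw [← ex] at e2 ed
      have e3 := VT.kTr_wof (D := D) (z := z) (G v) tP tG hb2.1
      have e4 := VT.kTr_wof (D := D) (z := z) (G v) tP tG hb1.1
      rw [wof_own] at e4
      rw [e1, eT, em, eR, e2, e3, e4, ed]
      refine le_trans (le_of_eq ?_) key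
      unfold gl
      congr 1
      ring
    intro v hv v' hv' hP hP' hL
    have hL' : D.wn J w (f v) = D.wn J w (f v') := hL
    have a1 := one v hv hP
    have a2 := one v' hv' hP'
    rw [← hL'] at a2
    have a3 := hsh.tgt (f v) (H.good v hv hP).1 (f v') (H.good v' hv' hP').1 (hpos v hP)
      (hpos v' hP') hL'
    have e5 : (2 : ℝ) ^ (c - (X : ℝ)) = (2 : ℝ) ^ c / 2 ^ X := by
      rw [Real.rpow_sub (by norm_num), Real.rpow_natCast]
    rw [e5] at a3
    refine hh_ar (ac := acc) (B := (2 : ℝ) ^ c)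
      (u := 2 ^ D.g π.o.1 π.o.2 n / 2 ^ D.g a.1 a.2 n * zt D a.1 a.2 (f v) n +
          dnf D π n w X a (Vd D π q J w ω₀ X a (D.wn J w (f v))).1 0)
      (u' := 2 ^ D.g π.o.1 π.o.2 n / 2 ^ D.g a.1 a.2 n * zt D a.1 a.2 (f v') n +
          dnf D π n w X a (Vd D π q J w ω₀ X a (D.wn J w (f v))).1 0)
      rfl rfl a1 a2 ?_ ?_
    · refine le_trans (le_of_eq ?_) a3
      have e6 : 2 ^ D.g π.o.1 π.o.2 n / 2 ^ D.g a.1 a.2 n * zt D a.1 a.2 (f v) n +
          dnf D π n w X a (Vd D π q J w ω₀ X a (D.wn J w (f v))).1 0 -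
          (2 ^ D.g π.o.1 π.o.2 n / 2 ^ D.g a.1 a.2 n * zt D a.1 a.2 (f v') n +
          dnf D π n w X a (Vd D π q J w ω₀ X a (D.wn J w (f v))).1 0) =
          ((D.X (f v) n - eval (D.X (f v)) (D.Φ a.1 a.2 (f v) n)) -
            (D.X (f v') n - eval (D.X (f v')) (D.Φ a.1 a.2 (f v') n))) *
              2 ^ D.g π.o.1 π.o.2 n := by
        unfold zt nat
        have : (2 : ℝ) ^ D.g a.1 a.2 n ≠ 0 := by positivity
        field_simp
        ring
      have h0 : (0 : ℝ) < 2 ^ D.g π.o.1 π.o.2 n := by positivity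
      rw [e6, abs_mul, abs_of_pos h0]
    · have hT : ∀ x : ℝ, x ≤ c + bb + cc → (2 : ℝ) ^ x ≤ (2 : ℝ) ^ (c + bb + cc) := fun x hx =>
        Real.rpow_le_rpow_of_exponent_le (by norm_num) hx
      have t1 := hT c (by linarith)
      have t2 := hT cc (by linarith)
      have t3 := hT 0 (by linarith)
      rw [Real.rpow_zero] at t3
      have t4 := H.acc_le
      have e7 : (2 : ℝ) ^ (c + bb + cc + ((CA : ℝ) + 3)) =
          (2 : ℝ) ^ (c + bb + cc) * (2 : ℝ) ^ ((CA : ℝ) + 3) :=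
        Real.rpow_add (by norm_num) _ _
      have t5 : (8 : ℝ) ≤ (2 : ℝ) ^ ((CA : ℝ) + 3) := by
        have e8 : (8 : ℝ) = (2 : ℝ) ^ (3 : ℝ) := by norm_num
        rw [e8]
        exact Real.rpow_le_rpow_of_exponent_le (by norm_num) (by linarith)
      have t6 : 0 < (2 : ℝ) ^ (c + bb + cc) := by positivity
      have t7 := mul_le_mul_of_nonneg_left t5 t6.le
      rw [← e7] at t7
      change 2 * (acc * 2 ^ X) + (2 : ℝ) ^ c + 1 ≤ (2 : ℝ) ^ (c + bb + cc + ((CA : ℝ) + 3))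
      linarith

end Pool.VAS
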